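import Pool.Agent.Run7.h768.QI.Conj

set_option autoImplicit false

/-! # The strong monodromy conjecture for ideals: affine linear polynomials and parabolas suffice

For every nonzero proper ideal `I` of `ℂ[x_1, ..., x_n]` we construct an ideal `I'` of a polynomial ring
in `m = n + κ` variables which is generated by polynomials of degree at most one and by polynomials
`y_a - x_a ^ 2`, where the `x_a`, `y_a` are different variables (`Par`), such that the strong monodromy
conjecture (Q1, and also Q2) for `I'` implies the one for `I`. So Q1 (respectively Q2) holds for all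
nonzero proper ideals, in any number of variables, if and only if it holds for the nonzero proper ideals
which are generated by affine linear polynomials and by such parabolas.

Construction. The step is `I ↦ (I, w - u)`, `w` a new variable, `u ∈ ℂ[x]` (the graph of `u`).
Every polynomial is computed from the variables and the constants by additions and by squarings
(`p q = ((p + q) ^ 2 - p ^ 2 - q ^ 2) / 2`), and a new variable `w` for every intermediate result replaces
all the other generators by affine linear ones.

Zeta functions. By a classification of the jets, without resolution of singularities, the motivic zeta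
function of `(I, w - u)` is an explicit function of the one of `I`; for the topological zeta functions
it is the exact formula `(s + κ) (Z_{I'}(s) - 1) = s (Z_I(s + κ) - 1)`. As all the poles are negative, the
poles of `Z_I`, shifted by `κ`, are poles of `Z_{I'}`.

Bernstein-Sato polynomials. If `b(s)` satisfies a functional equation of `I` then `b(s + κ)` satisfies one of
`I'`. For this the functional equations of the generators `f_1, ..., f_r` are compared with those of the
polynomial `∑ y_j f_j` (Mustata); they do not depend on the generators, nor on the coordinates. -/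

namespace Pool.Agent.Results.MP_ee8c61_ag.LinearAndParabolas

open MvPolynomial Pool.Agent.W428.MOT Pool.Agent.N101.CB Pool.Agent.Run7.h768.QI
open Pool.Agent.W574.SM (IsFunctionalEq)

/-- **Affine linear polynomials and parabolas suffice for the strong monodromy conjecture for ideals.**
Let `χ : 𝓜 → ℂ` be a ring homomorphism with `χ(𝕃) = 1`.

First part: for all `f_1, ..., f_r` in `n` variables which generate a nonzero proper ideal there are `κ`
and `F_1, ..., F_s` in `m = n + κ` variables with `Par F`, which generate a nonzero proper ideal, such that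
(1) for every topological zeta function `R` of `f` there is a topological zeta function `R'` of `F` with
`(s + κ) (R'(s) - 1) = s (R(s + κ) - 1)`, and if `s` is a pole of `R` then `s - κ` is a pole of `R'`;
(2) if `b(s)` satisfies a functional equation of `f` then `b(s + κ)` satisfies one of `F`;
(3) Q1 for `F` implies Q1 for `f`, and Q2 for `F` implies Q2 for `f`.

Second and third part: Q1 (respectively Q2) holds for all nonzero proper ideals, in any number of
variables, if and only if it holds for those with generators `f` with `Par f`. -/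
theorem result (χ : MK ℂ →+* ℂ) (hχ : χ ((Lu ℂ : (MK ℂ)ˣ) : MK ℂ) = 1) :
    (∀ {n r : ℕ} (f : Fin r → MvPolynomial (Fin n) ℂ), (∃ j, f j ≠ 0) →
      Ideal.span (Set.range f) ≠ ⊤ →
      ∃ (κ m s : ℕ) (F : Fin s → MvPolynomial (Fin m) ℂ), m = n + κ ∧ Par F ∧ (∃ j, F j ≠ 0) ∧
        Ideal.span (Set.range F) ≠ ⊤ ∧
        (∀ R : RatFunc ℂ, IsTopZetaI χ f R → ∃ R' : RatFunc ℂ, IsTopZetaI χ F R' ∧
          (RatFunc.X + (κ : RatFunc ℂ)) * (R' - 1) = RatFunc.X * (shR (κ : ℂ) R - 1) ∧
          ∀ s : ℂ, ¬ Reg R s → ¬ Reg R' (s - κ)) ∧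
        (∀ b : Polynomial ℂ, IsFunctionalEq f b →
          IsFunctionalEq F (b.comp (Polynomial.X + Polynomial.C (κ : ℂ)))) ∧
        (Q1For χ F → Q1For χ f) ∧ (Q2For χ F → Q2For χ f)) ∧
    ((∀ (n r : ℕ) (f : Fin r → MvPolynomial (Fin n) ℂ), (∃ j, f j ≠ 0) →
        Ideal.span (Set.range f) ≠ ⊤ → Q1For χ f) ↔
      ∀ (n r : ℕ) (f : Fin r → MvPolynomial (Fin n) ℂ), Par f → (∃ j, f j ≠ 0) →
        Ideal.span (Set.range f) ≠ ⊤ → Q1For χ f) ∧
    ((∀ (n r : ℕ) (f : Fin r → MvPolynomial (Fin n) ℂ), (∃ j, f j ≠ 0) →
        Ideal.span (Set.range f) ≠ ⊤ → Q2For χ f) ↔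
      ∀ (n r : ℕ) (f : Fin r → MvPolynomial (Fin n) ℂ), Par f → (∃ j, f j ≠ 0) →
        Ideal.span (Set.range f) ≠ ⊤ → Q2For χ f) := by
  refine ⟨fun {n r} f hf h1 => ?_, ⟨fun h n r f _ => h n r f, fun h n r f hf h1 => ?_⟩,
    ⟨fun h n r f _ => h n r f, fun h n r f hf h1 => ?_⟩⟩
  · obtain ⟨κ, m, s, F, hm, hF, hl⟩ := exists_par f
    refine ⟨κ, m, s, F, hm, hF, hl.ne hf, hl.ntop h1, fun R hR => ?_, hl.b hf,
      q1_of hχ hf hl, q2_of hχ hf hl⟩
    obtain ⟨R', h5, h6⟩ := hl.top χ hχ R hR
    exact ⟨R', h5, h6, fun s hs => h6.pole (ne_of_pole hR hs) hs⟩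
  · obtain ⟨κ, m, s, F, -, hF, hl⟩ := exists_par f
    exact q1_of hχ hf hl (h m s F hF (hl.ne hf) (hl.ntop h1))
  · obtain ⟨κ, m, s, F, -, hF, hl⟩ := exists_par f
    exact q2_of hχ hf hl (h m s F hF (hl.ne hf) (hl.ntop h1))

end Pool.Agent.Results.MP_ee8c61_ag.LinearAndParabolas
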