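import Pool.Agent.Run7.h827.MT.Main

set_option autoImplicit false

/-! # The strong monodromy conjecture for products of ideals of minors of products of matrices

Let a rooted forest be given, with the vertices `v < K`, and let `m ≤ n_v` be numbers (`MTree`). For
each vertex `v` let `X_v` be a matrix of independent variables, with `n_v` columns, and with `m`
rows if `v` is a root and `n_u` rows if `u` is the parent of `v`. Let `P_v` be the product of the
matrices along the path from the root to `v`, an `m × n_v` matrix: `P_v = X_v` for the roots, and
`P_v = P_u X_v` if `u` is the parent of `v` (`MTree.pm`). For `q = (v, i)`, `i < m` (`MTree.Cell`),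
let `I_q` be the ideal of the maximal minors of the matrix of the first `i + 1` rows of `P_v`
(`MTree.gen`). It vanishes where the rank of this matrix is at most `i`. Let `p ≤ q`, `p = (v, i)`,
`q = (w, j)`, if `v` is `w` or an ancestor of `w`, and `i ≤ j` (`MTree.Le`). Let `e q` be exponents,
and let `I = ∏ q, I_q ^ e q`. It is generated by the products of such minors, `e q` of them of the
first `i + 1` rows of `P_v`, for each `q = (v, i)` (`MTree.prod`). We assume that the set of the `q`
with `e q > 0` is closed downwards. For instance, if `m = 1`, these may be the ideals of the entries
of all the products `X_{v_1} ⋯ X_{v_k}` of a row vector and of matrices, along the paths which begin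
in a root; there is no other condition on the exponents.

The resolution. Let `D` be the set of the `q` with `e q > 0`, and let `E_p`, `p = (v, i) ∈ D`, be
obtained in the order of the vertices `v`, the parents before their children, and for each vertex in
the order of the `i`, as follows. Suppose that, for the parent `u` of `v`, the matrix of the first
rows of `P_u` has been written, locally, as a lower triangular matrix, with monomials in the
equations of the previous divisors on the diagonal, times a matrix `U_u` whose rows are linearly
independent at each point (for the roots `v` let `U_u` be the identity matrix). Then the rows `y_0,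
y_1, …` of `U_u X_v` are independent vectors of free coordinates. One blows up, in the order of the
`i`, the subvariety on which `y_i` is in the span of the rows `0, …, i - 1` of `U_v`, which have
been constructed before; it is smooth, of codimension `n_v - i`, and it crosses the previous
divisors transversely; after the blow-up `y_i` is a combination of these rows plus the equation of
`E_{(v, i)}` times a further vector, the row `i` of `U_v`. So one obtains a smooth variety `Y` on
which the `E_p`, `p ∈ D`, cross normally, the multiplicity of the Jacobian determinant along `E_p`
is `ν_p - 1` with `ν_p = n_v - i`, and `I_q`, `q ∈ D`, becomes the ideal of the divisor `∑_{p ≤ q}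
E_p`, by the formula of Cauchy and Binet. (If `ν_p = 1` then `E_p` is not exceptional but the strict
transform of the zeros of a determinant.) So `Y` is a log resolution of `I`, with the components
`E_p`, of multiplicity `N_p = ∑_{q ≥ p} e q` (`MTree.mulJ`, `MTree.nuJ`; in these definitions all
the pairs `p` are listed, those not in `D` have the multiplicity `0` and do not matter).

The proof. A residue computation at a general point of `E_p` gives the roots, since `E_p` is a Rees
divisor of `I` (`rees_prod`). The chart (`xi`), for `p = (v, s)`: the entries `(s, c)`, `c ≥ s`, of
`X_v` are such that the row `s` of `P_v` is `∑_k q_k (row k of P_v) + z w` (`row_v`), the sum over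
the `k < s`, where the `q_k` are determined by the first `s` columns, and `w = (0, …, 0, 1, w_{s +
1}, …)` with coordinates `w_c` (`wS`); all the other entries are coordinates `X + c` with constants
`c`, which are `λ` on the diagonals of the matrices (except at `(s, s)` for `X_v`) and `0` elsewhere
(`bs`). The quotients of the minors of the first `s + 1` rows of `P_v` by one of them are these
coordinates (`MM_Jc`), so `E_p` is a Rees divisor as soon as `e p > 0`. -/

namespace Pool.Agent.Results.MP_ee8c61_ag.MatrixProducts

open Pool.Agent.W574.SM Pool.Agent.TH192.DT Pool.Agent.Run7.h827.MT

/-- **The strong monodromy conjecture holds for the ideals `I = ∏ q, I_q ^ e q`**, products of powers of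
the ideals of the maximal minors of the first rows of the products `P_v` of generic matrices along
the paths of a rooted forest, if the set of the `q` with `e q > 0` is closed downwards. Let `b`
satisfy a functional equation of Budur, Mustata and Saito of the family of the products of the
minors, in particular, let `b` be the Bernstein-Sato polynomial `b_I`. (1) The numbers `-(ν_p + l) /
N_p`, `0 ≤ l < N_p`, for all `p = (v, i)`, where `ν_p = n_v - i` and `N_p = ∑_{q ≥ p} e q`, are
roots of `b`. (2) Every pole of the topological zeta function `Z_I`, computed on the resolution
described above (with arbitrary integers `χ` in the place of the Euler characteristics of the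
strata), is a root of `b`. -/
theorem result (G : MTree) (e : G.Cell → ℕ)
    (hd : ∀ p q : G.Cell, G.Le p q → e q ≠ 0 → e p ≠ 0) (b : Polynomial ℂ)
    (hb : IsFunctionalEq (G.prod e) b) :
    (∀ (p : G.Cell) (l : ℕ), l < G.mulJ e p →
      b.eval (-((G.nuJ p : ℂ) + l) / G.mulJ e p) = 0) ∧
    ∀ (χ : Finset (G.Cell) → ℤ) (s₀ : ℂ),
      (topZ (G.nuJ) (G.mulJ e) χ).denom.eval s₀ = 0 → b.eval s₀ = 0 := by
  have h := one_roots G e hd b 1 (by simp) (isLocEq_of_isFunctionalEq hb)
  exact ⟨h, fun χ s₀ hs => root_of_pole _ _ χ (fun p => Nat.succ_pos _) b h s₀ hs⟩

end Pool.Agent.Results.MP_ee8c61_ag.MatrixProducts
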