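import Pool.Agent.Run7.h827.NE.Main

set_option autoImplicit false

/-! # The strong monodromy conjecture for products of northeast ideals of maximal minors

Let `x = (x_{i,j})`, `0 ≤ i < m`, `0 ≤ j < n`, be the generic `m × n` matrix. For `q = (i, j)` with
`i + j < n` (`Cell m n`) let `I_q` be the ideal of the maximal minors of the northeast matrix which
consists of the first `i + 1` rows and of the last `n - j` columns of `x`: the northeast ideals of
maximal minors of Bruns and Conca, which are the Borel fixed ideals of maximal minors (`neGen m n
q`). It vanishes where the rank of this matrix is at most `i`, a subset of codimension `n - i - j`.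
Let `e q` be exponents, and let `I = ∏ q, I_q ^ e q`. It is generated by the products of such
minors, `e q` of them from the matrix of `q`, for each `q` (`neProd m n e`). We assume that the set
of the cells `q` with `e q > 0` is closed downwards. For instance, if `m ≤ n`, the `e q > 0` may be
those of the `I_{(i, 0)}`, `i < r`, the ideals of the maximal minors of the first `i + 1` rows, or
those of the `I_{(i, j)}` with `i < r`, `j < c`; there is no other condition on the exponents.

The resolution. Let `D` be the set of the cells `q` with `e q > 0`, and let `E_p`, `p = (i, j) ∈ D`,
be obtained in the order of the rows `i`, and in each row in the order of the `j`, as follows.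
Suppose that the `E_p` of the previous rows have been constructed, and that the `i`-vectors `x_0 ∧ …
∧ x_{i - 1}`, restricted to the columns `≥ j`, are, up to a monomial in the equations of these
divisors, nowhere vanishing, and so define a subspace `Λ_j` of dimension `i` of `ℂ ^ (n - j)`. The
condition that the row `x_i`, restricted to the columns `≥ j`, is in `Λ_j`, defines a smooth
subvariety `Z_j` of codimension `n - i - j`, which crosses the previous divisors transversely, since
the entries of the row `x_i` are free coordinates; and `Z_0 ⊆ Z_1 ⊆ …`, since the quotients of the
`ℂ ^ (n - j)` by the `Λ_j` are mapped onto each other. Blow up `Z_0` and the strict transforms of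
`Z_1, Z_2, …`, in this order; they are again smooth and transverse. So one obtains a smooth variety
`Y` on which the `E_p`, `p ∈ D`, cross normally, the multiplicity of the Jacobian determinant along
`E_p` is `ν_p - 1` with `ν_p = n - i - j`, and `I_q`, `q ∈ D`, becomes the ideal of the divisor
`∑_{p ≤ q} E_p`. (If `ν_p = 1` then `E_p` is not exceptional but the strict transform of the zeros
of a determinant.) So `Y` is a log resolution of `I`, with the components `E_p`, of multiplicity
`N_p = ∑_{q ≥ p} e q` (`mulJ`, `nuJ`; in these definitions all the cells are listed, those not in
`D` have the multiplicity `0` and do not matter).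

The proof. A residue computation at a general point of `E_p` gives the roots, since `E_p` is a Rees
divisor of `I` (`rees_prod`). The chart (`xi`), for `p = (i, j)`: the entries of the row `x_i` in
the last `i` columns, in the columns `< j`, and the entries of all the other rows are coordinates `X
+ c` with constants `c`, which are `λ` at the places of a partial permutation matrix and `0`
elsewhere; the other entries of the row `x_i` are `∑_k q_k x_k + z w`, where the `q_k` are
determined by the last `i` columns, and `w = 1` in one column and a coordinate in the other ones
(`wS`). The quotients of the minors of the matrix of `p` by one of them are these coordinates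
(`NM_Jc`), so `E_p` is a Rees divisor as soon as `e p > 0`. -/

namespace Pool.Agent.Results.MP_ee8c61_ag.NortheastMinors

open Pool.Agent.W574.SM Pool.Agent.TH192.DT Pool.Agent.Run7.h827.NE

/-- **The strong monodromy conjecture holds for the ideals `I = ∏ q, I_q ^ e q`**, products of powers of
northeast ideals of maximal minors of the generic `m × n` matrix, if the set of the cells `q` with
`e q > 0` is closed downwards. Let `b` satisfy a functional equation of Budur, Mustata and Saito of
the family of the products of the minors, in particular, let `b` be the Bernstein-Sato polynomial
`b_I`. (1) The numbers `-(ν_p + l) / N_p`, `0 ≤ l < N_p`, for all the cells `p = (i, j)`, where `ν_p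
= n - i - j` and `N_p = ∑_{q ≥ p} e q`, are roots of `b`. (2) Every pole of the topological zeta
function `Z_I`, computed on the resolution described above (with arbitrary integers `χ` in the place
of the Euler characteristics of the strata), is a root of `b`. -/
theorem result (m n : ℕ) (e : Cell m n → ℕ)
    (hd : ∀ p q : Cell m n, le p q → e q ≠ 0 → e p ≠ 0) (b : Polynomial ℂ)
    (hb : IsFunctionalEq (neProd m n e) b) :
    (∀ (p : Cell m n) (l : ℕ), l < mulJ m n e p →
      b.eval (-((nuJ m n p : ℂ) + l) / mulJ m n e p) = 0) ∧
    ∀ (χ : Finset (Cell m n) → ℤ) (s₀ : ℂ),
      (topZ (nuJ m n) (mulJ m n e) χ).denom.eval s₀ = 0 → b.eval s₀ = 0 := by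
  have h := one_roots m n e hd b 1 (by simp) (isLocEq_of_isFunctionalEq hb)
  exact ⟨h, fun χ s₀ hs => root_of_pole _ _ χ (fun p => Nat.succ_pos _) b h s₀ hs⟩

end Pool.Agent.Results.MP_ee8c61_ag.NortheastMinors
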